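import Pool.Agent.W500.CS.Stm

/-!
# Project CS, statements, second part: unbounded branches, the potential, Puiseux, assembly
-/

set_option autoImplicit false

open MeasureTheory Polynomial Metric Set Filter Topology
open scoped ComplexConjugate

namespace Pool.Agent.W500.CS

open Pool.Agent.H586R3.CT (CT)

/-! ## D. Unbounded branches do not occur near the centre -/

/-- the arc `x ↦ x exp (i (θ + x))` -/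
noncomputable def Am (θ x : ℝ) : ℂ := (x : ℂ) * Complex.exp (Complex.I * ((θ : ℂ) + x))

/-- D1. For almost every angle `θ` the derivatives of two different meromorphic primitives along
the arc `Am θ` are different near `0`. -/
def S_RAYSEP : Prop :=
  ∀ (R : ℝ) (K : ℕ) (g : ℂ → ℂ), 0 < R → DifferentiableOn ℂ g (ball 0 R) →
    (∀ s ∈ ball (0 : ℂ) R \ {0}, g s ≠ 0) →
    ∀ᵐ θ : ℝ, ∀ᶠ x : ℝ in 𝓝[>] 0, (g (Am θ x) / Am θ x ^ K * deriv (Am θ) x).re ≠ 0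

/-- D2. For almost every angle the arc `Am θ` consists near `0` of points of differentiability
with one index. -/
def S_RAYIDX : Prop :=
  ∀ (r : ℕ) (R : ℝ) (K : ℕ) (U : ℂ → ℝ) (b : Fin r → ℂ → ℂ), 0 < R →
    (∀ i, DifferentiableOn ℂ (b i) (ball 0 R)) →
    Dat (ball 0 R \ {0}) U (fun i s => b i s / s ^ K) →
    ∀ᵐ θ : ℝ, ∃ i, ∃ ε : ℝ, 0 < ε ∧ ∀ x : ℝ, x ∈ Ioo 0 ε → Am θ x ∈ ball (0 : ℂ) R \ {0} ∧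
      HasFDerivAt U (gr (b i (Am θ x) / Am θ x ^ K)) (Am θ x)

/-- D3. If the mean of `|G|` over the annuli `ρ < |s| < 2 ρ`, divided by `ρ`, tends to `0`, then for
almost every angle the arc `Am θ` does not eventually consist of points with `|s G s| ≥ c`. -/
def S_FATOU : Prop :=
  ∀ (G : ℂ → ℂ) (c : ℝ), Measurable G → 0 < c →
    Tendsto (fun ρ : ℝ => (∫⁻ s in {s : ℂ | ρ < ‖s‖ ∧ ‖s‖ < 2 * ρ}, ‖G s‖ₑ) / ENNReal.ofReal ρ)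
      (𝓝[>] 0) (𝓝 0) →
    ∀ᵐ θ : ℝ, ¬ ∃ ε : ℝ, 0 < ε ∧ ∀ᵐ x : ℝ, x ∈ Ioo 0 ε → c ≤ ‖Am θ x * G (Am θ x)‖

/-- D3'. Null sets of the plane in the coordinates `Am θ x`. -/
def S_AEAM : Prop :=
  ∀ p : ℂ → Prop, (∀ᵐ s : ℂ, p s) → ∀ᵐ θ : ℝ, ∀ᵐ x : ℝ, 0 < x → p (Am θ x)

/-- D4. Only the bounded branches occur near the centre. -/
def S_GOODL : Prop :=
  ∀ (r : ℕ) (R : ℝ) (K : ℕ) (U : ℂ → ℝ) (b : Fin r → ℂ → ℂ) (G : ℂ → ℂ), 0 < R →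
    (∀ i, DifferentiableOn ℂ (b i) (ball 0 R)) →
    Dat (ball 0 R \ {0}) U (fun i s => b i s / s ^ K) → Measurable G →
    (∀ᵐ s : ℂ, s ∈ ball (0 : ℂ) R \ {0} → HasFDerivAt U (gr (G s)) s) →
    Tendsto (fun ρ : ℝ => (∫⁻ s in {s : ℂ | ρ < ‖s‖ ∧ ‖s‖ < 2 * ρ}, ‖G s‖ₑ) / ENNReal.ofReal ρ)
      (𝓝[>] 0) (𝓝 0) →
    ∃ ρ : ℝ, 0 < ρ ∧ ∀ s : ℂ, 0 < ‖s‖ → ‖s‖ < ρ → ∀ j, HasFDerivAt U (gr (b j s / s ^ K)) s →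
      ∃ M : ℝ, ∀ᶠ w in 𝓝[≠] (0 : ℂ), ‖b j w / w ^ K‖ ≤ M

/-! ## E. The potential in the plane -/

/-- E1. The Cauchy transform is close to that of the atom at `z₀`, in the mean. -/
def S_AVG : Prop :=
  ∀ (μ : Measure ℂ) [IsFiniteMeasure μ] (z₀ : ℂ),
    Tendsto (fun ρ : ℝ => (∫⁻ z in ball z₀ ρ, ‖CT μ z - (μ.real {z₀} : ℂ) * (z - z₀)⁻¹‖ₑ) /
      ENNReal.ofReal ρ) (𝓝[>] 0) (𝓝 0)

/-- E2. The logarithmic potential and its weak gradient. -/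
def S_POTW : Prop :=
  ∀ (μ : Measure ℂ) [IsFiniteMeasure μ], (∃ R, μ (closedBall 0 R)ᶜ = 0) →
    ∃ u : ℂ → ℝ, Measurable u ∧ LocallyIntegrable u volume ∧ ∀ ψ : ℂ → ℝ, ContDiff ℝ 1 ψ →
      HasCompactSupport ψ → ∀ v : ℂ,
      ∫ z, u z * fderiv ℝ ψ z v = - ∫ z, (CT μ z * v).re * ψ z

/-- E3. A function with bounded weak gradient is Lipschitz. -/
def S_LIPR : Prop :=
  ∀ (u : ℂ → ℝ) (g : ℂ → ℂ) (z₁ : ℂ) (r : ℝ) (M : NNReal), 0 < r →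
    LocallyIntegrable u volume → LocallyIntegrable g volume →
    (∀ ψ : ℂ → ℝ, ContDiff ℝ 1 ψ → HasCompactSupport ψ → tsupport ψ ⊆ ball z₁ r → ∀ v : ℂ,
      ∫ z, u z * fderiv ℝ ψ z v = - ∫ z, (g z * v).re * ψ z) →
    (∀ᵐ z : ℂ, z ∈ ball z₁ r → ‖g z‖ ≤ M) →
    ∃ L : ℂ → ℝ, LipschitzOnWith M L (ball z₁ r) ∧ (∀ᵐ z : ℂ, z ∈ ball z₁ r → u z = L z) ∧
      (∀ᵐ z : ℂ, z ∈ ball z₁ r → HasFDerivAt L (gr (g z)) z)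

/-- E4. Gluing continuous representatives. -/
def S_GLUE : Prop :=
  ∀ (Ω : Set ℂ) (u : ℂ → ℝ), IsOpen Ω →
    (∀ z ∈ Ω, ∃ r > 0, ∃ L : ℂ → ℝ, ContinuousOn L (ball z r) ∧ ∀ᵐ w : ℂ, w ∈ ball z r → u w = L w) →
    ∃ v : ℂ → ℝ, ContinuousOn v Ω ∧ (∀ᵐ w : ℂ, w ∈ Ω → u w = v w)

/-- E5. A continuous function with weak Hessian bounded below is semiconvex. -/
def S_SCX : Prop :=
  ∀ (L : ℂ → ℝ) (z₁ : ℂ) (r C : ℝ), 0 < r → ContinuousOn L (ball z₁ r) →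
    (∀ (v : ℂ) (φ : ℂ → ℝ), ContDiff ℝ 2 φ → HasCompactSupport φ → (∀ z, 0 ≤ φ z) →
      tsupport φ ⊆ ball z₁ r →
      - (C * ‖v‖ ^ 2) * ∫ z, φ z ≤ ∫ z, L z * fderiv ℝ (fun y => fderiv ℝ φ y v) z v) →
    ConvexOn ℝ (ball z₁ r) (fun z => L z + C / 2 * ‖z‖ ^ 2)

/-- E6. The sets where the Cauchy transform equals one branch have finite perimeter. -/
def S_BVB : Prop :=
  ∀ (μ : Measure ℂ) [IsFiniteMeasure μ] (d : ℕ) (A : Fin d → ℂ → ℂ) (z₁ : ℂ) (r r' : ℝ),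
    0 < r' → r' < r → (∀ i, DifferentiableOn ℂ (A i) (ball z₁ r)) →
    (∀ i j, i ≠ j → ∀ z ∈ ball z₁ r, A i z ≠ A j z) →
    (∀ᵐ z : ℂ, z ∈ ball z₁ r → ∃ i, CT μ z = A i z) →
    ∃ C : ℝ, ∀ (i : Fin d) (φ : ℂ → ℝ), ContDiff ℝ 1 φ → HasCompactSupport φ →
      tsupport φ ⊆ ball z₁ r' → ∀ v : ℂ,
      |∫ z in {z | z ∈ ball z₁ r ∧ CT μ z = A i z}, fderiv ℝ φ z v| ≤ C * ‖v‖ * ∫ z, |φ z| ∂μ

/-- E7. A linear functional controlled by `μ` has a bounded density. -/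
def S_RN : Prop :=
  ∀ (μ : Measure ℂ) [IsFiniteMeasure μ] (E : Set ℂ) (z₁ : ℂ) (r' C : ℝ), 0 < r' →
    MeasurableSet E →
    (∀ φ : ℂ → ℝ, ContDiff ℝ 1 φ → HasCompactSupport φ → tsupport φ ⊆ ball z₁ r' → ∀ v : ℂ,
      |∫ z in E, fderiv ℝ φ z v| ≤ C * ‖v‖ * ∫ z, |φ z| ∂μ) →
    ∃ (P : ℂ → ℂ) (M : ℝ), Measurable P ∧ (∀ z, ‖P z‖ ≤ M) ∧
      ∀ φ : ℂ → ℝ, ContDiff ℝ 1 φ → HasCompactSupport φ → tsupport φ ⊆ ball z₁ r' → ∀ v : ℂ,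
      - ∫ z in E, fderiv ℝ φ z v = ∫ z, φ z * (P z * v).re ∂μ

/-- E8. From integrated to pointwise bounds. -/
def S_ABS : Prop :=
  ∀ (μ : Measure ℂ) [IsFiniteMeasure μ] (D : Set ℂ) (σ g : ℂ → ℝ) (M : ℝ), IsOpen D →
    Measurable σ → Measurable g → (∀ z, |σ z| ≤ M) → (∀ z, |g z| ≤ M) →
    (∀ φ : ℂ → ℝ, ContDiff ℝ 1 φ → HasCompactSupport φ → tsupport φ ⊆ D →
      |∫ z, φ z * σ z ∂μ| ≤ ∫ z, |φ z| * g z ∂μ) →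
    ∀ᵐ z ∂μ, z ∈ D → |σ z| ≤ g z

/-- E9. The square inequality for the densities. -/
def S_CHN : Prop :=
  ∀ (μ : Measure ℂ) [IsFiniteMeasure μ] (d : ℕ) (E : Fin d → Set ℂ) (P : Fin d → ℂ → ℂ)
    (z₁ : ℂ) (r M : ℝ), 0 < r → (∀ i, MeasurableSet (E i)) →
    (∀ i j, i ≠ j → Disjoint (E i) (E j)) → (∀ i, Measurable (P i)) → (∀ i z, ‖P i z‖ ≤ M) →
    (∀ i, ∀ φ : ℂ → ℝ, ContDiff ℝ 1 φ → HasCompactSupport φ → tsupport φ ⊆ ball z₁ r → ∀ v : ℂ,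
      - ∫ z in E i, fderiv ℝ φ z v = ∫ z, φ z * (P i z * v).re ∂μ) →
    ∀ (lam : Fin d → ℝ) (Λ : ℝ) (v : ℂ), (∀ i, |lam i| ≤ Λ) →
    ∀ᵐ z ∂μ, z ∈ ball z₁ r →
      |∑ i, lam i ^ 2 * (P i z * v).re| ≤ 2 * Λ * |∑ i, lam i * (P i z * v).re|

/-- E10. Algebra: at most two of the densities are not zero, and the jump part of the Hessian is
nonnegative. -/
def S_ALG : Prop :=
  ∀ (d : ℕ) (A P : Fin d → ℂ) (c : ℝ), 0 ≤ c → ∑ i, P i = 0 → ∑ i, A i * conj (P i) = c →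
    (∀ (lam : Fin d → ℝ) (Λ : ℝ) (v : ℂ), (∀ i, |lam i| ≤ Λ) →
      |∑ i, lam i ^ 2 * (P i * v).re| ≤ 2 * Λ * |∑ i, lam i * (P i * v).re|) →
    ∀ v : ℂ, 0 ≤ ∑ i, (A i * v).re * (P i * v).re

/-- E11. The two linear relations between the densities. -/
def S_REL : Prop :=
  ∀ (μ : Measure ℂ) [IsFiniteMeasure μ] (d : ℕ) (A : Fin d → ℂ → ℂ) (P : Fin d → ℂ → ℂ)
    (z₁ : ℂ) (r r' M : ℝ), 0 < r' → r' < r → (∀ i, DifferentiableOn ℂ (A i) (ball z₁ r)) →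
    (∀ i j, i ≠ j → ∀ z ∈ ball z₁ r, A i z ≠ A j z) →
    (∀ᵐ z : ℂ, z ∈ ball z₁ r → ∃ i, CT μ z = A i z) →
    (∀ i, Measurable (P i)) → (∀ i z, ‖P i z‖ ≤ M) →
    (∀ i, ∀ φ : ℂ → ℝ, ContDiff ℝ 1 φ → HasCompactSupport φ → tsupport φ ⊆ ball z₁ r' → ∀ v : ℂ,
      - ∫ z in {z | z ∈ ball z₁ r ∧ CT μ z = A i z}, fderiv ℝ φ z v =
        ∫ z, φ z * (P i z * v).re ∂μ) →
    ∀ᵐ z ∂μ, z ∈ ball z₁ r' → ∑ i, P i z = 0 ∧ ∑ i, A i z * conj (P i z) = (2 * Real.pi : ℝ)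

/-- E12. Lower bound of the weak Hessian of the potential near a regular point. -/
def S_HESS : Prop :=
  ∀ (μ : Measure ℂ) [IsFiniteMeasure μ] (d : ℕ) (A : Fin d → ℂ → ℂ) (z₁ : ℂ) (r r' : ℝ),
    0 < r' → r' < r → (∀ i, DifferentiableOn ℂ (A i) (ball z₁ r)) →
    (∀ i j, i ≠ j → ∀ z ∈ ball z₁ r, A i z ≠ A j z) →
    (∀ᵐ z : ℂ, z ∈ ball z₁ r → ∃ i, CT μ z = A i z) →
    ∃ C : ℝ, ∀ (v : ℂ) (φ : ℂ → ℝ), ContDiff ℝ 2 φ → HasCompactSupport φ → (∀ z, 0 ≤ φ z) →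
      tsupport φ ⊆ ball z₁ r' →
      - (C * ‖v‖ ^ 2) * ∫ z, φ z ≤ - ∫ z, (CT μ z * v).re * fderiv ℝ φ z v

/-- E13. The semiconvex potential. -/
def S_POT : Prop :=
  ∀ (μ : Measure ℂ) [IsFiniteMeasure μ], (∃ R, μ (closedBall 0 R)ᶜ = 0) → ∀ Ω : Set ℂ, IsOpen Ω →
    (∀ z ∈ Ω, ∃ r > 0, ∃ (d : ℕ) (A : Fin d → ℂ → ℂ),
      (∀ i, DifferentiableOn ℂ (A i) (ball z r)) ∧
      (∀ i j, i ≠ j → ∀ w ∈ ball z r, A i w ≠ A j w) ∧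
      (∀ᵐ w : ℂ, w ∈ ball z r → ∃ i, CT μ w = A i w)) →
    ∃ u : ℂ → ℝ, SCon Ω u ∧ ∀ᵐ z : ℂ, z ∈ Ω → HasFDerivAt u (gr (CT μ z)) z

/-! ## F. Puiseux -/

/-- F1. Global branches over a convex set. -/
def S_BRANCH : Prop :=
  ∀ (H : Set ℂ) (Z : ℂ → Set ℂ) (d : ℕ), IsOpen H → Convex ℝ H → H.Nonempty →
    (∀ ζ ∈ H, ∃ r > 0, ball ζ r ⊆ H ∧ ∃ A : Fin d → ℂ → ℂ,
      (∀ i, DifferentiableOn ℂ (A i) (ball ζ r)) ∧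
      (∀ i j, i ≠ j → ∀ w ∈ ball ζ r, A i w ≠ A j w) ∧
      (∀ w ∈ ball ζ r, Z w = {x | ∃ i, x = A i w})) →
    ∃ A : Fin d → ℂ → ℂ, (∀ i, DifferentiableOn ℂ (A i) H) ∧
      (∀ i j, i ≠ j → ∀ w ∈ H, A i w ≠ A j w) ∧ (∀ w ∈ H, Z w = {x | ∃ i, x = A i w})

/-- F2. Branches over a punctured disc after ramification. -/
def S_PER : Prop :=
  ∀ (ρ₀ : ℝ) (z₀ : ℂ) (Z : ℂ → Set ℂ) (d : ℕ), 0 < ρ₀ →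
    (∀ z, 0 < ‖z - z₀‖ → ‖z - z₀‖ < ρ₀ → ∃ r > 0, ∃ A : Fin d → ℂ → ℂ,
      (∀ i, DifferentiableOn ℂ (A i) (ball z r)) ∧
      (∀ i j, i ≠ j → ∀ w ∈ ball z r, A i w ≠ A j w) ∧
      (∀ w ∈ ball z r, Z w = {x | ∃ i, x = A i w})) →
    ∃ N : ℕ, 0 < N ∧ ∃ a : Fin d → ℂ → ℂ, ∀ ρ : ℝ, 0 < ρ → ρ ^ N ≤ ρ₀ →
      (∀ i, DifferentiableOn ℂ (a i) (ball 0 ρ \ {0})) ∧
      (∀ i j, i ≠ j → ∀ s ∈ ball (0 : ℂ) ρ \ {0}, a i s ≠ a j s) ∧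
      (∀ s ∈ ball (0 : ℂ) ρ \ {0}, Z (z₀ + s ^ N) = {x | ∃ i, x = a i s})

/-- F3. Puiseux' theorem in convergent form. -/
def S_PUIS : Prop :=
  ∀ (Q : ℂ[X][X]) (R : ℂ[X]) (V W : ℂ[X][X]), V * Q + W * derivative Q = C R → R ≠ 0 →
    ∀ z₀ : ℂ, ∃ (N K : ℕ) (ρ : ℝ) (b : Fin Q.natDegree → ℂ → ℂ), 0 < N ∧ 0 < ρ ∧
      (∀ i, DifferentiableOn ℂ (b i) (ball 0 ρ)) ∧
      (∀ i j, i ≠ j → ∀ s ∈ ball (0 : ℂ) ρ \ {0}, b i s ≠ b j s) ∧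
      (∀ s ∈ ball (0 : ℂ) ρ \ {0}, R.eval (z₀ + s ^ N) ≠ 0 ∧
        Q.leadingCoeff.eval (z₀ + s ^ N) ≠ 0 ∧
        ∀ w, Q.evalEval (z₀ + s ^ N) w = 0 ↔ ∃ i, s ^ K * w = b i s)

/-! ## G. Transport and assembly -/

/-- G1. Where the Cauchy transform is holomorphic there is no mass. -/
def S_SUP1 : Prop :=
  ∀ (μ : Measure ℂ) [IsFiniteMeasure μ] (G : Set ℂ) (A : ℂ → ℂ), IsOpen G →
    DifferentiableOn ℂ A G → (∀ᵐ z : ℂ, z ∈ G → CT μ z = A z) → Disjoint G μ.support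

/-- G2. Off the support the Cauchy transform is holomorphic. -/
def S_SUP2 : Prop :=
  ∀ (μ : Measure ℂ) [IsFiniteMeasure μ], ∀ z ∉ μ.support, ∃ r > 0,
    DifferentiableOn ℂ (CT μ) (ball z r)

/-- G3. Semiconvexity under a change of variables. -/
def S_SCOMP : Prop :=
  ∀ (Ω W : Set ℂ) (u H : ℂ → ℝ) (g : ℂ → ℂ), IsOpen W → SCon Ω u → DifferentiableOn ℂ g W →
    MapsTo g W Ω → ContDiffOn ℝ 2 H W → SCon W (fun s => u (g s) + H s)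

/-- G4. Null sets under `s ↦ z₀ + s ^ N`. -/
def S_AEP : Prop :=
  ∀ (p : ℂ → Prop) (z₀ : ℂ) (N : ℕ), 0 < N → (∀ᵐ z : ℂ, p z) → ∀ᵐ s : ℂ, p (z₀ + s ^ N)

/-- G5. Means under `s ↦ z₀ + s ^ N`. -/
def S_AVS : Prop :=
  ∀ (g : ℂ → ℂ) (z₀ : ℂ) (N : ℕ), 0 < N → Measurable g →
    Tendsto (fun ρ : ℝ => (∫⁻ z in ball z₀ ρ, ‖g z‖ₑ) / ENNReal.ofReal ρ) (𝓝[>] 0) (𝓝 0) →
    Tendsto (fun ρ : ℝ => (∫⁻ s in {s : ℂ | ρ < ‖s‖ ∧ ‖s‖ < 2 * ρ},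
      ‖(N : ℂ) * s ^ (N - 1) * g (z₀ + s ^ N)‖ₑ) / ENNReal.ofReal ρ) (𝓝[>] 0) (𝓝 0)

/-- G6. The image of a short interval under a non-constant analytic map is an analytic arc. -/
def S_ARC : Prop :=
  ∀ f : ℝ → ℂ, AnalyticAt ℝ f 0 → (¬ ∀ᶠ q in 𝓝[>] (0 : ℝ), f q = f 0) →
    ∃ ε₀ > 0, ∀ ε : ℝ, 0 < ε → ε < ε₀ → IsArc (f '' Icc 0 ε)

/-- G7. Local data in the uniformising disc. -/
def S_PULL : Prop :=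
  ∀ (μ : Measure ℂ) [IsFiniteMeasure μ], (∃ R, μ (closedBall 0 R)ᶜ = 0) → ∀ P : ℂ[X][X], P ≠ 0 →
    (∀ᵐ z : ℂ, P.evalEval z (CT μ z) = 0) → ∀ z₀ : ℂ,
    ∃ (N K r : ℕ) (ρ : ℝ) (b : Fin r → ℂ → ℂ) (U : ℂ → ℝ), 0 < N ∧ 0 < ρ ∧
      (∀ i, DifferentiableOn ℂ (b i) (ball 0 ρ)) ∧
      Dat (ball 0 ρ \ {0}) U (fun i s => b i s / s ^ K) ∧
      (∀ᵐ s : ℂ, s ∈ ball (0 : ℂ) ρ \ {0} → HasFDerivAt U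
        (gr ((N : ℂ) * s ^ (N - 1) * (CT μ (z₀ + s ^ N) - (μ.real {z₀} : ℂ) * (s ^ N)⁻¹))) s)

/-- G7b. Reduction to bounded branches. -/
def S_RED : Prop :=
  ∀ (r : ℕ) (R : ℝ) (K : ℕ) (U : ℂ → ℝ) (b : Fin r → ℂ → ℂ), 0 < R →
    (∀ i, DifferentiableOn ℂ (b i) (ball 0 R)) →
    Dat (ball 0 R \ {0}) U (fun i s => b i s / s ^ K) →
    (∃ ρ : ℝ, 0 < ρ ∧ ∀ s : ℂ, 0 < ‖s‖ → ‖s‖ < ρ → ∀ j, HasFDerivAt U (gr (b j s / s ^ K)) s →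
      ∃ M : ℝ, ∀ᶠ w in 𝓝[≠] (0 : ℂ), ‖b j w / w ^ K‖ ≤ M) →
    ∃ (R' : ℝ) (r' : ℕ) (B : Fin r' → ℂ → ℂ) (U' : ℂ → ℝ), 0 < R' ∧ R' ≤ R ∧
      (∀ s, s ≠ 0 → U' s = U s) ∧ ContinuousAt U' 0 ∧ Dat (ball 0 R' \ {0}) U' B ∧
      (∀ i, DifferentiableOn ℂ (B i) (ball 0 R'))

/-- G8a. The support in the uniformising disc. -/
def S_LINK : Prop :=
  ∀ (μ : Measure ℂ) [IsFiniteMeasure μ] (z₀ m : ℂ) (N r : ℕ) (W : Set ℂ) (U : ℂ → ℝ)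
    (B : Fin r → ℂ → ℂ), 0 < N → Dat W U B → (0 : ℂ) ∉ W →
    (∀ᵐ s : ℂ, s ∈ W → HasFDerivAt U
        (gr ((N : ℂ) * s ^ (N - 1) * (CT μ (z₀ + s ^ N) - m * (s ^ N)⁻¹))) s) →
    ∀ s ∈ W, (z₀ + s ^ N ∈ μ.support ↔ ¬ DifferentiableAt ℝ U s)

/-- G8. Local structure of the support. -/
def S_LOCAL : Prop :=
  ∀ (μ : Measure ℂ) [IsFiniteMeasure μ], (∃ R, μ (closedBall 0 R)ᶜ = 0) → ∀ P : ℂ[X][X], P ≠ 0 →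
    (∀ᵐ z : ℂ, P.evalEval z (CT μ z) = 0) → ∀ z₀ : ℂ,
    ∃ (n : ℕ) (A : Fin n → Set ℂ), (∀ i, IsArc (A i) ∧ A i ⊆ μ.support) ∧
      ∀ᶠ z in 𝓝 z₀, z ∈ μ.support → z = z₀ ∨ ∃ i, z ∈ A i

/-- G9. The theorem. -/
def S_FINAL : Prop :=
  ∀ (μ : Measure ℂ) [IsFiniteMeasure μ], IsCompact μ.support → ∀ P : ℂ[X][X], P ≠ 0 →
    (∀ᵐ z : ℂ, P.evalEval z (∫ ζ, (z - ζ)⁻¹ ∂μ) = 0) →
    ∃ (n : ℕ) (A : Fin n → Set ℂ) (F : Set ℂ), (∀ i, IsArc (A i)) ∧ F.Finite ∧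
      Disjoint F (⋃ i, A i) ∧ μ.support = (⋃ i, A i) ∪ F

end Pool.Agent.W500.CS
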