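import Pool.Agent.W500.CS.Stm2

set_option autoImplicit false

open MeasureTheory Polynomial Metric Set Filter Topology

namespace Pool.Agent.W500.CS

theorem isArc_isCompact {A : Set ℂ} (h : IsArc A) : IsCompact A := by
  obtain ⟨f, a, b, ha, hb, hf, -, rfl⟩ := h
  refine isCompact_Icc.image_of_continuousOn fun x hx => ?_
  exact (hf x ⟨by linarith [hx.1], by linarith [hx.2]⟩).continuousAt.continuousWithinAt

theorem final_isolated (h : S_FINAL) (μ : Measure ℂ) [IsFiniteMeasure μ]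
    (hc : IsCompact μ.support) (P : ℂ[X][X]) (hP : P ≠ 0)
    (hz : ∀ᵐ z : ℂ, P.evalEval z (∫ ζ, (z - ζ)⁻¹ ∂μ) = 0) :
    ∃ (n : ℕ) (A : Fin n → Set ℂ) (F : Set ℂ), (∀ i, IsArc (A i)) ∧ F.Finite ∧
      (∀ x ∈ F, ∃ ε > 0, μ.support ∩ ball x ε = {x}) ∧ μ.support = (⋃ i, A i) ∪ F := by
  obtain ⟨n, A, F, hA, hF, hd, hs⟩ := h μ hc P hP hz
  refine ⟨n, A, F, hA, hF, fun x hx => ?_, hs⟩
  have hcl : IsClosed ((⋃ i, A i) ∪ (F \ {x})) := by
    refine IsClosed.union ?_ (hF.subset diff_subset).isClosed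
    exact isClosed_iUnion_of_finite fun i => (isArc_isCompact (hA i)).isClosed
  have hxn : x ∉ (⋃ i, A i) ∪ (F \ {x}) := by
    rintro (h1 | h1)
    · exact (Set.disjoint_left.1 hd hx) h1
    · exact h1.2 rfl
  obtain ⟨ε, hε, hb⟩ := Metric.isOpen_iff.1 hcl.isOpen_compl x hxn
  refine ⟨ε, hε, ?_⟩
  ext y
  constructor
  · rintro ⟨hy, hyb⟩
    by_contra hyx
    apply hb hyb
    rw [hs] at hy
    rcases hy with hy | hy
    · exact Or.inl hy
    · exact Or.inr ⟨hy, hyx⟩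
  · rintro rfl
    exact ⟨by rw [hs]; exact Or.inr hx, mem_ball_self hε⟩

end Pool.Agent.W500.CS
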