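import Mathlib
import Pool.Agent.H586R3.CT8

/-!
# Project CS: the support of a positive measure with algebraic Cauchy transform

Definitions and exact statements (as `Prop`s) of the parts of the proof that the support is a
finite union of compact analytic arcs and isolated points.
-/

set_option autoImplicit false

open MeasureTheory Polynomial Metric Set Filter Topology
open scoped ComplexConjugate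

namespace Pool.Agent.W500.CS

open Pool.Agent.H586R3.CT (CT)

/-- compact analytic arc -/
def IsArc (A : Set ℂ) : Prop :=
  ∃ (f : ℝ → ℂ) (a b : ℝ), a < 0 ∧ 1 < b ∧ AnalyticOnNhd ℝ f (Ioo a b) ∧ InjOn f (Ioo a b) ∧
    A = f '' Icc 0 1

/-- the real linear form `v ↦ Re (w v)` -/
noncomputable def gr (w : ℂ) : ℂ →L[ℝ] ℝ := Complex.reCLM.comp ((ContinuousLinearMap.mul ℝ ℂ) w)

theorem gr_apply (w v : ℂ) : gr w v = (w * v).re := rfl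

/-- `U` is locally semiconvex on the (open) set `W` -/
def SCon (W : Set ℂ) (U : ℂ → ℝ) : Prop :=
  ∀ x ∈ W, ∃ ε > 0, ∃ C : ℝ, ball x ε ⊆ W ∧ ConvexOn ℝ (ball x ε) (fun y => U y + C * ‖y‖ ^ 2)

/-- `v` is locally semiconvex on the interval `(a, b)` -/
def SC1 (a b : ℝ) (v : ℝ → ℝ) : Prop :=
  ∀ t ∈ Ioo a b, ∃ ε > 0, ∃ C : ℝ, ConvexOn ℝ (Ioo (t - ε) (t + ε)) (fun y => v y + C * y ^ 2)

/-- `U` is locally semiconvex on `W` and its gradient is almost everywhere one of the conjugates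
of the holomorphic functions `B i`, which have different values at every point of `W` -/
structure Dat {r : ℕ} (W : Set ℂ) (U : ℂ → ℝ) (B : Fin r → ℂ → ℂ) : Prop where
  op : IsOpen W
  sc : SCon W U
  hol : ∀ i, DifferentiableOn ℂ (B i) W
  ne : ∀ i j, i ≠ j → ∀ x ∈ W, B i x ≠ B j x
  ae : ∀ᵐ x : ℂ, x ∈ W → ∃ i, HasFDerivAt U (gr (B i x)) x

/-- the continuous functions `ψ i` are pairwise equal or comparable on `(a, b)` -/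
def Sep {r : ℕ} (a b : ℝ) (ψ : Fin r → ℝ → ℝ) : Prop :=
  ∀ i j, (∀ t ∈ Ioo a b, ψ i t = ψ j t) ∨ (∀ t ∈ Ioo a b, ψ i t < ψ j t) ∨
    (∀ t ∈ Ioo a b, ψ j t < ψ i t)

/-- twisted polar coordinates -/
noncomputable def Gm (κ φ₀ q φ : ℝ) : ℂ :=
  (q : ℂ) * Complex.exp ((κ : ℂ) * ((φ : ℂ) - φ₀) + Complex.I * φ)

/-! ## A. One variable -/

/-- A1. The index of the right derivative of a locally semiconvex function is monotone. -/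
def S_MONO : Prop :=
  ∀ (r : ℕ) (a b : ℝ) (v : ℝ → ℝ) (ψ : Fin r → ℝ → ℝ), SC1 a b v →
    (∀ i, ContinuousOn (ψ i) (Ioo a b)) → Sep a b ψ →
    (∀ t ∈ Ioo a b, ∃ i, HasDerivWithinAt v (ψ i t) (Ioi t) t) →
    ∀ s t, a < s → s ≤ t → t < b → ∀ i j, HasDerivWithinAt v (ψ i s) (Ioi s) s →
      HasDerivWithinAt v (ψ j t) (Ioi t) t → ψ i t ≤ ψ j t

/-- A2. Comparison with a primitive `η i` of `ψ i`. -/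
def S_QC : Prop :=
  ∀ (r : ℕ) (a b : ℝ) (v : ℝ → ℝ) (ψ η : Fin r → ℝ → ℝ), SC1 a b v →
    (∀ i, ContinuousOn (ψ i) (Ioo a b)) → Sep a b ψ →
    (∀ t ∈ Ioo a b, ∃ i, HasDerivWithinAt v (ψ i t) (Ioi t) t) →
    (∀ i, ∀ t ∈ Ioo a b, HasDerivAt (η i) (ψ i t) t) →
    (∀ i x y z, a < x → x ≤ y → y ≤ z → z < b → v y - η i y ≤ max (v x - η i x) (v z - η i z)) ∧
    (∀ i x, x ∈ Ioo a b → HasDerivAt v (ψ i x) x → ∀ y ∈ Ioo a b, v x - η i x ≤ v y - η i y)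

/-- A3. Near the left end of the interval the index is constant. -/
def S_EV : Prop :=
  ∀ (r : ℕ) (b : ℝ) (v : ℝ → ℝ) (ψ : Fin r → ℝ → ℝ), 0 < b → SC1 0 b v →
    (∀ i, ContinuousOn (ψ i) (Ioo 0 b)) → Sep 0 b ψ →
    (∀ t ∈ Ioo 0 b, ∃ i, HasDerivWithinAt v (ψ i t) (Ioi t) t) →
    ∃ i, ∃ ε, 0 < ε ∧ ε ≤ b ∧ ∀ t ∈ Ioo 0 ε, HasDerivAt v (ψ i t) t

/-- A4. Finitely many germs of analytic functions are pairwise equal or comparable. -/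
def S_SEP : Prop :=
  ∀ (r : ℕ) (ψ : Fin r → ℝ → ℝ), (∀ i, AnalyticAt ℝ (ψ i) 0) →
    ∃ ε > 0, (∀ i, AnalyticOnNhd ℝ (ψ i) (Ioo (-ε) ε)) ∧ Sep 0 ε ψ

/-- A5. Germs of analytic functions: equal, or separated by a power. -/
def S_GERM : Prop :=
  ∀ (f g : ℝ → ℝ), AnalyticAt ℝ f 0 → AnalyticAt ℝ g 0 →
    (∀ᶠ q in 𝓝[>] (0 : ℝ), f q = g q) ∨
    (∃ (c : ℝ) (m : ℕ), 0 < c ∧ ∀ᶠ q in 𝓝[>] (0 : ℝ), f q - g q ≥ c * q ^ m) ∨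
    (∃ (c : ℝ) (m : ℕ), 0 < c ∧ ∀ᶠ q in 𝓝[>] (0 : ℝ), g q - f q ≥ c * q ^ m)

/-! ## B. Curves and points of differentiability -/

/-- B1. Directional derivatives. -/
def S_DIR : Prop :=
  ∀ (r : ℕ) (W : Set ℂ) (U : ℂ → ℝ) (B : Fin r → ℂ → ℂ), Dat W U B → ∀ x ∈ W, ∀ e : ℂ,
    ∃ i, HasDerivWithinAt (fun t : ℝ => U (x + t * e)) ((B i x * e).re) (Ioi 0) 0

/-- B2. Restriction to a curve of class `C²`. -/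
def S_CURVE : Prop :=
  ∀ (r : ℕ) (W : Set ℂ) (U : ℂ → ℝ) (B : Fin r → ℂ → ℂ), Dat W U B →
    ∀ (γ : ℝ → ℂ) (a b : ℝ), (∀ t ∈ Ioo a b, γ t ∈ W ∧ ContDiffAt ℝ 2 γ t) →
    SC1 a b (fun t => U (γ t)) ∧ ∀ t ∈ Ioo a b, ∃ i,
      HasDerivWithinAt (fun t => U (γ t)) ((B i (γ t) * deriv γ t).re) (Ioi t) t

/-- B3. If near `x` only the index `i` occurs, then `U` is smooth near `x` with this index. -/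
def S_NBR : Prop :=
  ∀ (r : ℕ) (W : Set ℂ) (U : ℂ → ℝ) (B : Fin r → ℂ → ℂ), Dat W U B → ∀ x ∈ W, ∀ i,
    (∀ᶠ y in 𝓝 x, ∀ j, HasFDerivAt U (gr (B j y)) y → j = i) →
    ∀ᶠ y in 𝓝 x, HasFDerivAt U (gr (B i y)) y

/-- B4. Near a point of differentiability the index is constant. -/
def S_OPEN : Prop :=
  ∀ (r : ℕ) (W : Set ℂ) (U : ℂ → ℝ) (B : Fin r → ℂ → ℂ), Dat W U B → ∀ x ∈ W,
    DifferentiableAt ℝ U x → ∃ i, ∀ᶠ y in 𝓝 x, HasFDerivAt U (gr (B i y)) y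

/-- B5. Differentiability from the restriction to one curve. -/
def S_DIFC : Prop :=
  ∀ (r : ℕ) (W : Set ℂ) (U : ℂ → ℝ) (B : Fin r → ℂ → ℂ), Dat W U B →
    ∀ (γ : ℝ → ℂ) (t : ℝ), γ t ∈ W → ContDiffAt ℝ 2 γ t → ∀ i,
    HasDerivAt (fun t => U (γ t)) ((B i (γ t) * deriv γ t).re) t →
    (∀ j, j ≠ i → (B j (γ t) * deriv γ t).re ≠ (B i (γ t) * deriv γ t).re) →
    ∀ᶠ y in 𝓝 (γ t), HasFDerivAt U (gr (B i y)) y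

/-- B6. One-sided limit at the centre of a punctured disc. -/
def S_LIM0 : Prop :=
  ∀ (r : ℕ) (R M : ℝ) (U : ℂ → ℝ) (B : Fin r → ℂ → ℂ), 0 < R → Dat (ball 0 R \ {0}) U B →
    (∀ i, ∀ x ∈ ball (0 : ℂ) R \ {0}, ‖B i x‖ ≤ M) → ∃ L, Tendsto U (𝓝[≠] 0) (𝓝 L)

/-! ## C. Structure near a point, bounded branches -/

/-- C1. Choice of the twist: all slopes are strictly ordered, and the slopes of the unbounded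
branches stay away from `0`. -/
def S_KAP : Prop :=
  ∀ (r : ℕ) (R : ℝ) (K : ℕ) (b : Fin r → ℂ → ℂ), 0 < R →
    (∀ i, DifferentiableOn ℂ (b i) (ball 0 R)) →
    (∀ i j, i ≠ j → ∀ s ∈ ball (0 : ℂ) R \ {0}, b i s ≠ b j s) → ∀ φ₀ : ℝ,
    ∃ κ δ ε : ℝ, 0 < δ ∧ δ ≤ 1 ∧ 0 < ε ∧
      (∀ q ∈ Ioo 0 ε, ∀ φ ∈ Icc (φ₀ - δ) (φ₀ + δ), Gm κ φ₀ q φ ∈ ball (0 : ℂ) R \ {0}) ∧
      (∀ i j, i ≠ j →
        (∀ q ∈ Ioo 0 ε, ∀ φ ∈ Icc (φ₀ - δ) (φ₀ + δ),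
          (b i (Gm κ φ₀ q φ) / Gm κ φ₀ q φ ^ K * ((κ + Complex.I) * Gm κ φ₀ q φ)).re <
          (b j (Gm κ φ₀ q φ) / Gm κ φ₀ q φ ^ K * ((κ + Complex.I) * Gm κ φ₀ q φ)).re) ∨
        (∀ q ∈ Ioo 0 ε, ∀ φ ∈ Icc (φ₀ - δ) (φ₀ + δ),
          (b j (Gm κ φ₀ q φ) / Gm κ φ₀ q φ ^ K * ((κ + Complex.I) * Gm κ φ₀ q φ)).re <
          (b i (Gm κ φ₀ q φ) / Gm κ φ₀ q φ ^ K * ((κ + Complex.I) * Gm κ φ₀ q φ)).re)) ∧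
      (∀ j, (∃ M, ∀ᶠ s in 𝓝[≠] (0 : ℂ), ‖b j s / s ^ K‖ ≤ M) ∨
        ∃ c > 0, (∀ q ∈ Ioo 0 ε, ∀ φ ∈ Icc (φ₀ - δ) (φ₀ + δ),
            c ≤ (b j (Gm κ φ₀ q φ) / Gm κ φ₀ q φ ^ K * ((κ + Complex.I) * Gm κ φ₀ q φ)).re) ∨
          (∀ q ∈ Ioo 0 ε, ∀ φ ∈ Icc (φ₀ - δ) (φ₀ + δ),
            (b j (Gm κ φ₀ q φ) / Gm κ φ₀ q φ ^ K * ((κ + Complex.I) * Gm κ φ₀ q φ)).re ≤ -c))

/-- C2. The zero set of `Re G` in a thin twisted strip is empty or one analytic germ. -/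
def S_ZERO : Prop :=
  ∀ (R κ φ₀ δ δ' ε : ℝ) (G : ℂ → ℂ), 0 < R → 0 < δ' → δ' < δ → 0 < ε →
    DifferentiableOn ℂ G (ball 0 R) → G 0 = 0 →
    (∀ q ∈ Ioo 0 ε, ∀ φ ∈ Icc (φ₀ - δ) (φ₀ + δ), Gm κ φ₀ q φ ∈ ball (0 : ℂ) R \ {0}) →
    ((∀ q ∈ Ioo 0 ε, ∀ φ ∈ Icc (φ₀ - δ) (φ₀ + δ),
        0 < (deriv G (Gm κ φ₀ q φ) * ((κ + Complex.I) * Gm κ φ₀ q φ)).re) ∨
      (∀ q ∈ Ioo 0 ε, ∀ φ ∈ Icc (φ₀ - δ) (φ₀ + δ),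
        (deriv G (Gm κ φ₀ q φ) * ((κ + Complex.I) * Gm κ φ₀ q φ)).re < 0)) →
    ∃ ε' > 0, ε' ≤ ε ∧
      ((∀ q ∈ Ioo 0 ε', ∀ φ ∈ Icc (φ₀ - δ') (φ₀ + δ'), (G (Gm κ φ₀ q φ)).re ≠ 0) ∨
        ∃ Φ : ℝ → ℝ, AnalyticAt ℝ Φ 0 ∧ |Φ 0 - φ₀| < δ ∧ ∀ q ∈ Ioo 0 ε', |Φ q - φ₀| < δ ∧
          (G (Gm κ φ₀ q (Φ q))).re = 0 ∧
          ∀ φ ∈ Icc (φ₀ - δ') (φ₀ + δ'), (G (Gm κ φ₀ q φ)).re = 0 → φ = Φ q)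

/-- C3. The values of `U` on an analytic arc through the centre. -/
def S_ARCV : Prop :=
  ∀ (r : ℕ) (R : ℝ) (U : ℂ → ℝ) (B h : Fin r → ℂ → ℂ), 0 < R → ContinuousAt U 0 →
    Dat (ball 0 R \ {0}) U B → (∀ i, DifferentiableOn ℂ (B i) (ball 0 R)) →
    (∀ i, h i 0 = 0) → (∀ i, ∀ s ∈ ball (0 : ℂ) R, HasDerivAt (h i) (B i s) s) →
    ∀ γ : ℝ → ℂ, AnalyticAt ℝ γ 0 → γ 0 = 0 → deriv γ 0 ≠ 0 →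
    ∃ i, ∃ ε > 0, ∀ q ∈ Ioo 0 ε, γ q ∈ ball (0 : ℂ) R \ {0} ∧ U (γ q) = U 0 + (h i (γ q)).re ∧
      HasDerivAt (fun q => U (γ q)) ((B i (γ q) * deriv γ q).re) q

/-- C4. A generic analytic arc consists of points of differentiability with one index. -/
def S_ARCG : Prop :=
  ∀ (r : ℕ) (R : ℝ) (U : ℂ → ℝ) (B h : Fin r → ℂ → ℂ), 0 < R → ContinuousAt U 0 →
    Dat (ball 0 R \ {0}) U B → (∀ i, DifferentiableOn ℂ (B i) (ball 0 R)) →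
    (∀ i, h i 0 = 0) → (∀ i, ∀ s ∈ ball (0 : ℂ) R, HasDerivAt (h i) (B i s) s) →
    ∀ γ : ℝ → ℂ, AnalyticAt ℝ γ 0 → γ 0 = 0 → deriv γ 0 ≠ 0 →
    (∀ i j, i ≠ j → ¬ ∀ᶠ q in 𝓝[>] (0 : ℝ), (h i (γ q)).re = (h j (γ q)).re) →
    ∃ i, ∃ ε > 0, ∀ q ∈ Ioo 0 ε, γ q ∈ ball (0 : ℂ) R \ {0} ∧ U (γ q) = U 0 + (h i (γ q)).re ∧
      HasFDerivAt U (gr (B i (γ q))) (γ q)

/-- C5. Generic germs in a strip: given a germ `Φ`, an order of contact `p` and the strict order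
of the slopes there is a germ as close to `Φ` as desired which is generic. -/
def S_GENG : Prop :=
  ∀ (r : ℕ) (R κ φ₀ δ ε : ℝ) (B h : Fin r → ℂ → ℂ), 0 < R → 0 < δ → 0 < ε →
    (∀ i, DifferentiableOn ℂ (B i) (ball 0 R)) → (∀ i, h i 0 = 0) →
    (∀ i, ∀ s ∈ ball (0 : ℂ) R, HasDerivAt (h i) (B i s) s) →
    (∀ q ∈ Ioo 0 ε, ∀ φ ∈ Icc (φ₀ - δ) (φ₀ + δ), Gm κ φ₀ q φ ∈ ball (0 : ℂ) R \ {0}) →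
    (∀ i j, i ≠ j → ∀ q ∈ Ioo 0 ε, ∀ φ ∈ Icc (φ₀ - δ) (φ₀ + δ),
      (B i (Gm κ φ₀ q φ) * ((κ + Complex.I) * Gm κ φ₀ q φ)).re ≠
      (B j (Gm κ φ₀ q φ) * ((κ + Complex.I) * Gm κ φ₀ q φ)).re) →
    ∀ (Φ : ℝ → ℝ) (p : ℕ) (η : ℝ), AnalyticAt ℝ Φ 0 → |Φ 0 - φ₀| < δ → 0 < η →
    ∃ c : ℝ, |c| < η ∧ ∀ i j, i ≠ j →
      ¬ ∀ᶠ q in 𝓝[>] (0 : ℝ), (h i (Gm κ φ₀ q (Φ q + c * q ^ p))).re =
        (h j (Gm κ φ₀ q (Φ q + c * q ^ p))).re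

/-- C5a. Lower bound by the branch which occurs along one germ. -/
def S_LOW : Prop :=
  ∀ (r : ℕ) (R κ φ₀ δ ε : ℝ) (U : ℂ → ℝ) (B h : Fin r → ℂ → ℂ), 0 < R → 0 < δ → 0 < ε →
    Dat (ball 0 R \ {0}) U B → (∀ i, DifferentiableOn ℂ (B i) (ball 0 R)) →
    (∀ i, ∀ s ∈ ball (0 : ℂ) R, HasDerivAt (h i) (B i s) s) →
    (∀ q ∈ Ioo 0 ε, ∀ φ ∈ Icc (φ₀ - δ) (φ₀ + δ), Gm κ φ₀ q φ ∈ ball (0 : ℂ) R \ {0}) →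
    (∀ i j, i ≠ j → ∀ q ∈ Ioo 0 ε, ∀ φ ∈ Icc (φ₀ - δ) (φ₀ + δ),
      (B i (Gm κ φ₀ q φ) * ((κ + Complex.I) * Gm κ φ₀ q φ)).re ≠
      (B j (Gm κ φ₀ q φ) * ((κ + Complex.I) * Gm κ φ₀ q φ)).re) →
    ∀ (q φ₁ : ℝ) (i : Fin r), q ∈ Ioo 0 ε → φ₁ ∈ Ioo (φ₀ - δ) (φ₀ + δ) →
      HasFDerivAt U (gr (B i (Gm κ φ₀ q φ₁))) (Gm κ φ₀ q φ₁) →
      ∀ φ ∈ Ioo (φ₀ - δ) (φ₀ + δ),
        U (Gm κ φ₀ q φ₁) - (h i (Gm κ φ₀ q φ₁)).re ≤ U (Gm κ φ₀ q φ) - (h i (Gm κ φ₀ q φ)).re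

/-- C5b. In a thin sector the function is near the centre the maximum of finitely many
harmonic functions. -/
def S_MAXF : Prop :=
  ∀ (r : ℕ) (R : ℝ) (U : ℂ → ℝ) (B h : Fin r → ℂ → ℂ), 0 < R → ContinuousAt U 0 →
    Dat (ball 0 R \ {0}) U B → (∀ i, DifferentiableOn ℂ (B i) (ball 0 R)) → (∀ i, h i 0 = 0) →
    (∀ i, ∀ s ∈ ball (0 : ℂ) R, HasDerivAt (h i) (B i s) s) → ∀ φ₀ : ℝ,
    ∃ (κ δ ε : ℝ) (J : Finset (Fin r)), 0 < δ ∧ δ ≤ 1 ∧ 0 < ε ∧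
      (∀ q ∈ Ioo 0 ε, ∀ φ ∈ Icc (φ₀ - δ) (φ₀ + δ), Gm κ φ₀ q φ ∈ ball (0 : ℂ) R \ {0}) ∧
      (∀ i j, i ≠ j →
        (∀ q ∈ Ioo 0 ε, ∀ φ ∈ Icc (φ₀ - δ) (φ₀ + δ),
          (B i (Gm κ φ₀ q φ) * ((κ + Complex.I) * Gm κ φ₀ q φ)).re <
          (B j (Gm κ φ₀ q φ) * ((κ + Complex.I) * Gm κ φ₀ q φ)).re) ∨
        (∀ q ∈ Ioo 0 ε, ∀ φ ∈ Icc (φ₀ - δ) (φ₀ + δ),
          (B j (Gm κ φ₀ q φ) * ((κ + Complex.I) * Gm κ φ₀ q φ)).re <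
          (B i (Gm κ φ₀ q φ) * ((κ + Complex.I) * Gm κ φ₀ q φ)).re)) ∧
      ∀ q ∈ Ioo 0 ε, ∀ φ ∈ Icc (φ₀ - δ) (φ₀ + δ),
        (∃ i ∈ J, U (Gm κ φ₀ q φ) = U 0 + (h i (Gm κ φ₀ q φ)).re) ∧
        ∀ i ∈ J, U 0 + (h i (Gm κ φ₀ q φ)).re ≤ U (Gm κ φ₀ q φ)

/-- C6. Structure of the points of non-differentiability in a thin sector. -/
def S_STRIP : Prop :=
  ∀ (r : ℕ) (R : ℝ) (U : ℂ → ℝ) (B : Fin r → ℂ → ℂ), 0 < R → ContinuousAt U 0 →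
    Dat (ball 0 R \ {0}) U B → (∀ i, DifferentiableOn ℂ (B i) (ball 0 R)) → ∀ φ₀ : ℝ,
    ∃ (δ : ℝ) (n : ℕ) (γ : Fin n → ℝ → ℂ) (ε : ℝ), 0 < δ ∧ 0 < ε ∧
      (∀ k, AnalyticAt ℝ (γ k) 0 ∧ γ k 0 = 0 ∧ deriv (γ k) 0 ≠ 0) ∧
      (∀ k, ∀ q ∈ Ioo 0 ε, γ k q ∈ ball (0 : ℂ) R \ {0} ∧ ¬ DifferentiableAt ℝ U (γ k q)) ∧
      (∀ ε' : ℝ, 0 < ε' → ε' ≤ ε → ∃ ρ : ℝ, 0 < ρ ∧ ∀ x φ : ℝ, 0 < x → x < ρ → |φ - φ₀| < δ →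
        ¬ DifferentiableAt ℝ U ((x : ℂ) * Complex.exp (Complex.I * φ)) →
        ∃ k, ∃ q ∈ Ioo 0 ε', (x : ℂ) * Complex.exp (Complex.I * φ) = γ k q)

/-- C7. Structure of the points of non-differentiability near the centre. -/
def S_T : Prop :=
  ∀ (r : ℕ) (R : ℝ) (U : ℂ → ℝ) (B : Fin r → ℂ → ℂ), 0 < R → ContinuousAt U 0 →
    Dat (ball 0 R \ {0}) U B → (∀ i, DifferentiableOn ℂ (B i) (ball 0 R)) →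
    ∃ (n : ℕ) (γ : Fin n → ℝ → ℂ) (ε : ℝ), 0 < ε ∧
      (∀ k, AnalyticAt ℝ (γ k) 0 ∧ γ k 0 = 0 ∧ deriv (γ k) 0 ≠ 0) ∧
      (∀ k, ∀ q ∈ Ioo 0 ε, γ k q ∈ ball (0 : ℂ) R \ {0} ∧ ¬ DifferentiableAt ℝ U (γ k q)) ∧
      (∀ ε' : ℝ, 0 < ε' → ε' ≤ ε → ∃ ρ : ℝ, 0 < ρ ∧ ∀ s : ℂ, 0 < ‖s‖ → ‖s‖ < ρ →
        ¬ DifferentiableAt ℝ U s → ∃ k, ∃ q ∈ Ioo 0 ε', s = γ k q)

end Pool.Agent.W500.CS
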